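import Pool.Agent.Lib.helper20.AssocHomog
import Pool.Agent.Lib.helper20.AlgRegular

namespace Pool.Agent.Results.MP_00fd70_lc.PerfectRegular

open Pool.Agent.Lib.helper20.AlgHomog

universe u

/-- `A` satisfies the identity `x_1 x_2 ⋯ x_n = 0`: the product `x_1 (x_2 (⋯ x_n))`, written as the
list `l` of the first `n - 1` factors and the last factor `a`, vanishes. -/
def SatisfiesNil (n : ℕ) (A : Type u) [NonUnitalRing A] : Prop :=
  ∀ (l : List A) (a : A), l.length + 1 = n → l.foldr (fun x z => x * z) a = 0

variable {K : Type u} [Field K]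

lemma F_eq_bot {A : Type u} [NonUnitalRing A] [Module K A] [IsScalarTower K A A]
    [SMulCommClass K A A] {n : ℕ} (h : SatisfiesNil (n + 1) A) :
    F (LinearMap.mul K A) n = ⊥ := by
  have key : ∀ k, ∀ l : List A, l.length + k = n → ∀ b ∈ F (LinearMap.mul K A) k,
      l.foldr (fun x z => x * z) b = 0 := by
    intro k
    induction k with
    | zero => intro l hl b _; exact h l b (by omega)
    | succ k ih =>
      intro l hl
      have hlin : ∀ l : List A, ∃ g : A →ₗ[K] A, ∀ b, g b = l.foldr (fun x z => x * z) b := by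
        intro l
        induction l with
        | nil => exact ⟨LinearMap.id, fun _ => rfl⟩
        | cons x l ih =>
          obtain ⟨g, hg⟩ := ih
          exact ⟨(LinearMap.mul K A x).comp g, fun b => by simp [hg]⟩
      obtain ⟨g, hg⟩ := hlin l
      have : Submodule.map₂ (LinearMap.mul K A) ⊤ (F (LinearMap.mul K A) k) ≤ LinearMap.ker g := by
        rw [Submodule.map₂_le]
        intro a _ b hb
        have := ih (l ++ [a]) (by simp; omega) b hb
        rw [List.foldr_append] at this
        rw [LinearMap.mem_ker, hg]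
        exact this
      intro b hb
      rw [← hg]
      exact this hb
  rw [eq_bot_iff]
  intro b hb
  exact key n [] (by simp) b hb

lemma foldr_coe {A : Type u} [NonUnitalRing A] [Module K A] (S : NonUnitalSubalgebra K A)
    (l : List S) (a : S) : ((l.foldr (fun x z => x * z) a : S) : A) =
      (l.map (fun x : S => (x : A))).foldr (fun x z => x * z) (a : A) := by
  induction l with
  | nil => rfl
  | cons x l ih =>
    rw [List.foldr_cons, List.map_cons, List.foldr_cons, ← ih]
    rfl

theorem result (K : Type u) [Field K] (n r : ℕ) (hn : 2 ≤ n)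
    (A : Type u) [NonUnitalRing A] [Module K A] [IsScalarTower K A A] [SMulCommClass K A A]
    (y : Fin r → A) (hA : IsFreeIn K (fun B _ _ => SatisfiesNil n B) A y) :
    Homogeneous K A (fun a b => a * b) ∧
    ∀ (B : Type u) [NonUnitalRing B] [Module K B] [IsScalarTower K B B] [SMulCommClass K B B],
      SatisfiesNil n B → Isotypic K A B (fun a b => a * b) (fun a b => a * b) →
      ∃ e : A ≃ₗ[K] B, ∀ a b, e (a * b) = e a * e b := by
  have hP : SatisfiesNil n A := hA.1
  have hsub : ∀ S : NonUnitalSubalgebra K A, SatisfiesNil n S := by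
    intro S l a hl
    apply Subtype.ext
    rw [foldr_coe]
    exact hP _ _ (by simpa using hl)
  have hh : Homogeneous K A (fun a b => a * b) := by
    by_cases h3 : 3 ≤ n
    · obtain ⟨k, rfl⟩ : ∃ k, n = k + 1 := ⟨n - 1, by omega⟩
      refine assoc_homog hA hsub (F_eq_bot hP) ?_
      intro l a hl
      match l, hl with
      | [], hl => simp at hl; omega
      | [x], hl => simp at hl; omega
      | x :: z :: l, _ => exact T3.ext' (by simp) (by simp) (by simp)
    · apply homogeneous_zero
      intro a b
      exact hP [a] b (by simp; omega)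
  refine ⟨hh, fun B _ _ _ _ hB hi => ?_⟩
  have hgen : ∀ M : Submodule K A, (∀ i, y i ∈ M) →
      (∀ a ∈ M, ∀ b ∈ M, LinearMap.mul K A a b ∈ M) → M = ⊤ := by
    intro M hy hM
    let S : NonUnitalSubalgebra K A := M.toNonUnitalSubalgebra (fun a b ha hb => hM a ha b hb)
    obtain ⟨f, hf, -⟩ := hA.2 S (hsub S) (fun i => ⟨y i, hy i⟩)
    obtain ⟨g, -, hg⟩ := hA.2 A hP y
    have e1 := hg ((NonUnitalSubalgebraClass.subtype S).comp f) (fun i => by simp [hf])
    have e2 := hg (NonUnitalAlgHom.id K A) (fun i => rfl)
    rw [eq_top_iff]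
    intro x _
    have : x = ((f x : S) : A) := DFunLike.congr_fun (e2.trans e1.symm) x
    rw [this]
    exact (f x).2
  refine iso_of_isotypic (y := y) hh (exists_term (μ := LinearMap.mul K A) hgen) (fun y' => ?_) hi
  obtain ⟨f, hf, -⟩ := hA.2 B hB y'
  exact ⟨(f : A →ₗ[K] B), fun a b => by simp, hf⟩

end Pool.Agent.Results.MP_00fd70_lc.PerfectRegular
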